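import Pool.Agent.Q66.SH.Stm

/-! Project SH of helper66, job PB: the projections `P b k`. -/

set_option autoImplicit false

open Filter Topology
open scoped ENNReal

namespace Pool.Agent.Q277.SH

open Pool.Agent.Q66.SH

variable {H : Type} [NormedAddCommGroup H] [InnerProductSpace ℂ H]

theorem P_apply (b : HilbertBasis ℕ ℂ H) (k : ℕ) (x : H) :
    P b k x = ∑ i ∈ Finset.range k, inner ℂ (b i) x • b i := by
  unfold P rk1
  rw [ContinuousLinearMap.sum_apply]
  rfl

/-- finite sums of the expansion have smaller norm -/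
theorem norm_part_le (b : HilbertBasis ℕ ℂ H) (s : Finset ℕ) (x : H) :
    ‖∑ i ∈ s, inner ℂ (b i) x • b i‖ ≤ ‖x‖ := by
  have h1 : ‖∑ i ∈ s, inner ℂ (b i) x • b i‖ ^ 2 = ∑ i ∈ s, ‖inner ℂ (b i) x‖ ^ 2 := by
    have h2 := b.orthonormal.inner_sum (fun i => inner ℂ (b i) x) (fun i => inner ℂ (b i) x) s
    rw [inner_self_eq_norm_sq_to_K] at h2
    have h3 : ((‖∑ i ∈ s, inner ℂ (b i) x • b i‖ ^ 2 : ℝ) : ℂ) =
        ((∑ i ∈ s, ‖inner ℂ (b i) x‖ ^ 2 : ℝ) : ℂ) := by
      push_cast
      refine Eq.trans h2 (Finset.sum_congr rfl fun i _ => ?_)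
      exact Complex.conj_mul' _
    exact_mod_cast h3
  have h4 : ‖∑ i ∈ s, inner ℂ (b i) x • b i‖ ^ 2 ≤ ‖x‖ ^ 2 := by
    rw [h1]
    exact b.orthonormal.sum_inner_products_le x
  exact (sq_le_sq₀ (norm_nonneg _) (norm_nonneg _)).1 h4

theorem inner_P (b : HilbertBasis ℕ ℂ H) {i l : ℕ} (h : i < l) (x : H) :
    inner ℂ (b i) (P b l x) = inner ℂ (b i) x := by
  rw [P_apply]
  exact b.orthonormal.inner_right_sum (fun i => inner ℂ (b i) x) (Finset.mem_range.2 h)

variable [CompleteSpace H]

theorem P_adj (b : HilbertBasis ℕ ℂ H) (k : ℕ) : ContinuousLinearMap.adjoint (P b k) = P b k := by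
  symm
  rw [ContinuousLinearMap.eq_adjoint_iff]
  intro x y
  rw [P_apply, P_apply, sum_inner, inner_sum]
  refine Finset.sum_congr rfl fun i _ => ?_
  rw [inner_smul_left, inner_smul_right, inner_conj_symm, mul_comm]

theorem P_mul (b : HilbertBasis ℕ ℂ H) {k l : ℕ} (h : k ≤ l) : P b k * P b l = P b k := by
  ext x
  show P b k (P b l x) = P b k x
  rw [P_apply b k (P b l x), P_apply b k x]
  refine Finset.sum_congr rfl fun i hi => ?_
  rw [inner_P b (lt_of_lt_of_le (Finset.mem_range.1 hi) h)]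

theorem P_mul' (b : HilbertBasis ℕ ℂ H) {k l : ℕ} (h : k ≤ l) : P b l * P b k = P b k := by
  have h1 : ContinuousLinearMap.adjoint (P b k ∘L P b l) =
      ContinuousLinearMap.adjoint (P b l) ∘L ContinuousLinearMap.adjoint (P b k) :=
    ContinuousLinearMap.adjoint_comp _ _
  have h2 : P b k ∘L P b l = P b k := P_mul b h
  rw [h2, P_adj, P_adj] at h1
  exact h1.symm

theorem t_PB : S_PB := by
  classical
  intro H _ _ _ b
  refine ⟨fun k l h => ⟨P_mul b h, P_mul' b h⟩, P_adj b, fun k => ?_, fun k l h => ?_,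
    fun k => ?_, fun x => ?_⟩
  · refine ContinuousLinearMap.opNorm_le_bound _ zero_le_one fun x => ?_
    rw [P_apply, one_mul]
    exact norm_part_le b _ x
  · refine ContinuousLinearMap.opNorm_le_bound _ zero_le_one fun x => ?_
    rw [ContinuousLinearMap.sub_apply, P_apply, P_apply, one_mul,
      ← Finset.sum_Ico_eq_sub _ h]
    exact norm_part_le b _ x
  · refine ⟨Submodule.span ℂ (((Finset.range k).image b : Finset H) : Set H), ?_, ?_, fun x => ?_⟩
    · exact FiniteDimensional.span_finset ℂ _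
    · refine le_trans (finrank_span_finset_le_card _) ?_
      refine le_trans Finset.card_image_le ?_
      rw [Finset.card_range]
    · rw [P_apply]
      refine Submodule.sum_mem _ fun i hi => Submodule.smul_mem _ _ (Submodule.subset_span ?_)
      exact Finset.mem_coe.2 (Finset.mem_image_of_mem _ hi)
  · have h1 := (b.hasSum_repr x).tendsto_sum_nat
    have h2 : (fun k => P b k x) = fun k => ∑ i ∈ Finset.range k, b.repr x i • b i := by
      funext k
      rw [P_apply]
      refine Finset.sum_congr rfl fun i _ => ?_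
      rw [HilbertBasis.repr_apply_apply]
    rw [h2]
    exact h1

end Pool.Agent.Q277.SH
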